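import Mathlib

set_option autoImplicit false

open Finset

namespace Pool.Agent.Hhelper64.GI.ThresholdDegree

/-! ## Graph isomorphism as a Boolean function -/

/-- Unordered pairs of distinct vertices among `n` vertices. -/
abbrev Pr (n : ℕ) : Type := {e : Sym2 (Fin n) // ¬ e.IsDiag}

/-- The Boolean variables: one for each unordered pair of vertices in each of the two graphs. -/
abbrev Var (n : ℕ) : Type := Pr n ⊕ Pr n

/-- The simple graph on `n` vertices described by a Boolean adjacency vector. -/
def graphOf {n : ℕ} (x : Pr n → Bool) : SimpleGraph (Fin n) where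
  Adj i j := ∃ h : ¬ (s(i, j) : Sym2 (Fin n)).IsDiag, x ⟨s(i, j), h⟩ = true
  symm := ⟨by
    rintro i j ⟨h, hx⟩
    have hs : (s(i, j) : Sym2 (Fin n)) = s(j, i) := Sym2.eq_swap
    refine ⟨hs ▸ h, ?_⟩
    simpa [hs] using hx⟩
  loopless := ⟨by
    rintro i ⟨h, -⟩
    exact h (by simp)⟩

/-- The graph isomorphism predicate: the two graphs described by the input are isomorphic. -/
def Isomorphic (n : ℕ) (a : Var n → Bool) : Prop :=
  Nonempty (graphOf (fun e => a (Sum.inl e)) ≃g graphOf (fun e => a (Sum.inr e)))

/-- The point of `{0,1}^(Var n)` in `ℝ^(Var n)` with the given bits. -/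
def pt {n : ℕ} (a : Var n → Bool) : Var n → ℝ := fun v => if a v = true then 1 else 0

/-! ## A lemma on supports (minimum distance of the dual of a Reed-Muller code) -/

lemma support_lemma {α : Type*} [DecidableEq α] (s : Finset α) :
    ∀ (k : ℕ) (g : Finset α → ℤ),
      (∀ F ⊆ s, F.card < k → ∑ z ∈ s.powerset with F ⊆ z, g z = 0) →
      (∀ z ⊆ s, g z = 0) ∨ 2 ^ k ≤ (s.powerset.filter (fun z => g z ≠ 0)).card := by
  induction s using Finset.induction_on with
  | empty =>
    intro k g hg
    rcases Nat.eq_zero_or_pos k with rfl | hk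
    · by_cases h : g ∅ = 0
      · left
        intro z hz
        rw [Finset.subset_empty.mp hz, h]
      · right
        rw [pow_zero, Nat.one_le_iff_ne_zero, ← Nat.pos_iff_ne_zero, Finset.card_pos]
        exact ⟨∅, Finset.mem_filter.mpr ⟨by simp, h⟩⟩
    · left
      intro z hz
      rw [Finset.subset_empty.mp hz]
      have := hg ∅ (Finset.Subset.refl _) (by simpa using hk)
      simpa using this
  | insert a s ha ih =>
    intro k g hg
    have hinj : Set.InjOn (insert a) (s.powerset : Set (Finset α)) := by
      intro x hx y hy hxy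
      have hx' : a ∉ x := fun h => ha (Finset.mem_powerset.mp hx h)
      have hy' : a ∉ y := fun h => ha (Finset.mem_powerset.mp hy h)
      have := congrArg (fun z => z.erase a) hxy
      simpa [Finset.erase_insert hx', Finset.erase_insert hy'] using this
    have hdis : Disjoint s.powerset (s.powerset.image (insert a)) := by
      rw [Finset.disjoint_left]
      intro x hx hx'
      obtain ⟨y, _, rfl⟩ := Finset.mem_image.mp hx'
      exact ha (Finset.mem_powerset.mp hx (Finset.mem_insert_self a y))
    rcases Nat.eq_zero_or_pos k with rfl | hk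
    · by_cases h : ∀ z ⊆ insert a s, g z = 0
      · exact Or.inl h
      · right
        push Not at h
        obtain ⟨z, hz, hz'⟩ := h
        rw [pow_zero, Nat.one_le_iff_ne_zero, ← Nat.pos_iff_ne_zero, Finset.card_pos]
        exact ⟨z, Finset.mem_filter.mpr ⟨Finset.mem_powerset.mpr hz, hz'⟩⟩
    · obtain ⟨k', rfl⟩ : ∃ k', k = k' + 1 := ⟨k - 1, by omega⟩
      -- the two halves
      have hcard : ((insert a s).powerset.filter (fun z => g z ≠ 0)).card
          = (s.powerset.filter (fun z => g z ≠ 0)).card
            + (s.powerset.filter (fun z => g (insert a z) ≠ 0)).card := by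
        rw [Finset.powerset_insert, Finset.filter_union, Finset.card_union_of_disjoint
          (Finset.disjoint_filter_filter hdis), Finset.filter_image,
          Finset.card_image_of_injOn]
        intro x hx y hy hxy
        exact hinj (Finset.mem_coe.mpr (Finset.mem_filter.mp (Finset.mem_coe.mp hx)).1)
          (Finset.mem_coe.mpr (Finset.mem_filter.mp (Finset.mem_coe.mp hy)).1) hxy
      have h1 := ih k' (fun z => g (insert a z)) (by
        intro F hF hFc
        have h := hg (insert a F) (Finset.insert_subset_insert a hF) (by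
          rw [Finset.card_insert_of_notMem (fun h => ha (hF h))]; omega)
        rw [Finset.powerset_insert, Finset.filter_union, Finset.sum_union
          (Finset.disjoint_filter_filter hdis)] at h
        have e1 : ∑ z ∈ s.powerset with insert a F ⊆ z, g z = 0 := by
          apply Finset.sum_eq_zero
          intro z hz
          exfalso
          rw [Finset.mem_filter, Finset.mem_powerset] at hz
          exact ha (hz.1 (hz.2 (Finset.mem_insert_self a F)))
        rw [e1, zero_add, Finset.filter_image, Finset.sum_image (by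
          intro x hx y hy hxy
          exact hinj (Finset.mem_coe.mpr (Finset.mem_filter.mp (Finset.mem_coe.mp hx)).1)
            (Finset.mem_coe.mpr (Finset.mem_filter.mp (Finset.mem_coe.mp hy)).1) hxy)] at h
        rw [← h]
        apply Finset.sum_congr _ (fun _ _ => rfl)
        apply Finset.filter_congr
        intro z hz
        have hFa : a ∉ F := fun h => ha (hF h)
        constructor
        · intro h
          exact Finset.insert_subset_insert a h
        · intro h x hx
          have := h (Finset.mem_insert_of_mem hx)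
          rw [Finset.mem_insert] at this
          rcases this with rfl | h'
          · exact absurd hx hFa
          · exact h')
      have h2 := ih (k' + 1) (fun z => g z + g (insert a z)) (by
        intro F hF hFc
        have h := hg F (hF.trans (Finset.subset_insert a s)) hFc
        rw [Finset.powerset_insert, Finset.filter_union, Finset.sum_union
          (Finset.disjoint_filter_filter hdis), Finset.filter_image, Finset.sum_image (by
          intro x hx y hy hxy
          exact hinj (Finset.mem_coe.mpr (Finset.mem_filter.mp (Finset.mem_coe.mp hx)).1)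
            (Finset.mem_coe.mpr (Finset.mem_filter.mp (Finset.mem_coe.mp hy)).1) hxy)] at h
        rw [Finset.sum_add_distrib, ← h]
        congr 1
        apply Finset.sum_congr _ (fun _ _ => rfl)
        apply Finset.filter_congr
        intro z hz
        have hFa : a ∉ F := fun h => ha (hF h)
        constructor
        · intro h
          exact h.trans (Finset.subset_insert a z)
        · intro h x hx
          have := h hx
          rw [Finset.mem_insert] at this
          rcases this with rfl | h'
          · exact absurd hx hFa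
          · exact h')
      rw [hcard]
      rcases h2 with h2 | h2
      · rcases h1 with h1 | h1
        · left
          intro z hz
          by_cases haz : a ∈ z
          · have hz' : z.erase a ⊆ s := by
              intro x hx
              rw [Finset.mem_erase] at hx
              have := hz hx.2
              rw [Finset.mem_insert] at this
              exact this.resolve_left hx.1
            have := h1 (z.erase a) hz'
            rwa [Finset.insert_erase haz] at this
          · have hz' : z ⊆ s := by
              intro x hx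
              have := hz hx
              rw [Finset.mem_insert] at this
              rcases this with rfl | h
              · exact absurd hx haz
              · exact h
            have e1 : g (insert a z) = 0 := h1 z hz'
            have e2 : g z + g (insert a z) = 0 := h2 z hz'
            rw [e1, add_zero] at e2
            exact e2
        · right
          have : (s.powerset.filter (fun z => g z ≠ 0))
              = (s.powerset.filter (fun z => g (insert a z) ≠ 0)) := by
            apply Finset.filter_congr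
            intro z hz
            have e2 : g z + g (insert a z) = 0 := h2 z (Finset.mem_powerset.mp hz)
            constructor
            · intro h h'
              apply h
              rw [h', add_zero] at e2
              exact e2
            · intro h h'
              apply h
              rw [h', zero_add] at e2
              exact e2
          rw [this, pow_succ]
          omega
      · right
        refine le_trans h2 (le_trans (Finset.card_le_card ?_) (Finset.card_union_le _ _))
        intro z hz
        rw [Finset.mem_filter] at hz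
        rw [Finset.mem_union, Finset.mem_filter, Finset.mem_filter]
        by_cases h : g z = 0
        · right
          refine ⟨hz.1, fun h' => hz.2 ?_⟩
          rw [h, h', add_zero]
        · exact Or.inl ⟨hz.1, h⟩


/-! ## The action of permutations -/

/-- action of a permutation on pairs -/
def pact {n : ℕ} (σ : Equiv.Perm (Fin n)) : Equiv.Perm (Pr n) where
  toFun e := ⟨Sym2.map σ e.1, by rw [Sym2.isDiag_map σ.injective]; exact e.2⟩
  invFun e := ⟨Sym2.map σ.symm e.1, by rw [Sym2.isDiag_map σ.symm.injective]; exact e.2⟩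
  left_inv e := by
    apply Subtype.ext
    simp [Sym2.map_map]
  right_inv e := by
    apply Subtype.ext
    simp [Sym2.map_map]

lemma pact_one {n : ℕ} (e : Pr n) : pact (1 : Equiv.Perm (Fin n)) e = e := by
  apply Subtype.ext
  simp [pact]

lemma isomorphic_iff {n : ℕ} (a : Var n → Bool) :
    Isomorphic n a ↔ ∃ σ : Equiv.Perm (Fin n), ∀ e : Pr n,
      a (Sum.inr (pact σ e)) = a (Sum.inl e) := by
  constructor
  · rintro ⟨φ⟩
    refine ⟨φ.toEquiv, ?_⟩
    rintro ⟨e, he⟩
    induction e using Sym2.ind with
    | _ i j =>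
      have h := φ.map_adj_iff (v := i) (w := j)
      simp only [graphOf] at h
      have hne : ¬ (s(φ i, φ j) : Sym2 (Fin n)).IsDiag := by
        intro hd
        apply he
        rw [Sym2.mk_isDiag_iff] at hd ⊢
        exact φ.injective hd
      have e1 : pact φ.toEquiv ⟨s(i, j), he⟩ = ⟨s(φ i, φ j), hne⟩ := by
        apply Subtype.ext
        simp [pact]
      rw [e1]
      rw [Bool.eq_iff_iff]
      constructor
      · intro h'
        obtain ⟨_, h''⟩ := h.mp ⟨hne, h'⟩
        exact h''
      · intro h'
        obtain ⟨_, h''⟩ := h.mpr ⟨he, h'⟩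
        exact h''
  · rintro ⟨σ, hσ⟩
    refine ⟨⟨σ, ?_⟩⟩
    intro i j
    simp only [graphOf]
    constructor
    · rintro ⟨h, hx⟩
      have h' : ¬ (s(i, j) : Sym2 (Fin n)).IsDiag := by
        intro hd
        apply h
        rw [Sym2.mk_isDiag_iff] at hd ⊢
        rw [hd]
      refine ⟨h', ?_⟩
      have := hσ ⟨s(i, j), h'⟩
      rw [← this]
      have e1 : pact σ ⟨s(i, j), h'⟩ = ⟨s(σ i, σ j), h⟩ := by
        apply Subtype.ext
        simp [pact]
      rw [e1]
      exact hx
    · rintro ⟨h', hx⟩
      have h : ¬ (s(σ i, σ j) : Sym2 (Fin n)).IsDiag := by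
        intro hd
        apply h'
        rw [Sym2.mk_isDiag_iff] at hd ⊢
        exact σ.injective hd
      refine ⟨h, ?_⟩
      have := hσ ⟨s(i, j), h'⟩
      have e1 : pact σ ⟨s(i, j), h'⟩ = ⟨s(σ i, σ j), h⟩ := by
        apply Subtype.ext
        simp [pact]
      rw [← e1, this]
      exact hx

/-! ## Upper bound: subgraph counts with few edges separate graphs -/

/-- the edge set of the permuted graph -/
def eset {n : ℕ} (x : Pr n → Bool) (σ : Equiv.Perm (Fin n)) : Finset (Pr n) :=
  univ.filter (fun e => x (pact σ e) = true)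

/-- the number of permutations which map the set `F` of pairs into the edges of `x` -/
def cnt {n : ℕ} (x : Pr n → Bool) (F : Finset (Pr n)) : ℕ :=
  (univ.filter (fun σ : Equiv.Perm (Fin n) => F ⊆ eset x σ)).card

lemma sum_fib {n : ℕ} (x : Pr n → Bool) (F : Finset (Pr n)) :
    ∑ z ∈ (univ : Finset (Pr n)).powerset with F ⊆ z,
      ((univ.filter (fun σ : Equiv.Perm (Fin n) => eset x σ = z)).card : ℤ) = cnt x F := by
  unfold cnt
  rw [← Nat.cast_sum]
  congr 1
  rw [← Finset.card_biUnion]
  · congr 1
    ext σ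
    simp only [Finset.mem_biUnion, Finset.mem_filter, Finset.mem_univ, true_and,
      Finset.mem_powerset]
    constructor
    · rintro ⟨z, ⟨_, hz⟩, rfl⟩
      exact hz
    · intro h
      exact ⟨_, ⟨Finset.subset_univ _, h⟩, rfl⟩
  · intro z _ z' _ hne
    rw [Function.onFun, Finset.disjoint_left]
    intro σ h h'
    rw [Finset.mem_filter] at h h'
    exact hne (h.2.symm.trans h'.2)

theorem separation {n k : ℕ} (hk : 2 * n.factorial < 2 ^ k) (x y : Pr n → Bool)
    (h : ∀ F : Finset (Pr n), F.card < k → cnt x F = cnt y F) :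
    ∃ σ : Equiv.Perm (Fin n), ∀ e, y (pact σ e) = x e := by
  classical
  set g : Finset (Pr n) → ℤ := fun z =>
    ((univ.filter (fun σ : Equiv.Perm (Fin n) => eset x σ = z)).card : ℤ)
      - ((univ.filter (fun σ : Equiv.Perm (Fin n) => eset y σ = z)).card : ℤ) with hg
  rcases support_lemma (univ : Finset (Pr n)) k g (by
    intro F _ hF
    rw [hg]
    simp only
    rw [Finset.sum_sub_distrib, sum_fib, sum_fib, h F hF, sub_self]) with h0 | h1
  · have h2 := h0 (eset x 1) (Finset.subset_univ _)
    rw [hg] at h2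
    simp only at h2
    have h3 : 0 < (univ.filter (fun σ : Equiv.Perm (Fin n) => eset x σ = eset x 1)).card := by
      rw [Finset.card_pos]
      exact ⟨1, by simp⟩
    have h4 : 0 < (univ.filter (fun σ : Equiv.Perm (Fin n) => eset y σ = eset x 1)).card := by
      omega
    rw [Finset.card_pos] at h4
    obtain ⟨σ, hσ⟩ := h4
    rw [Finset.mem_filter] at hσ
    refine ⟨σ, fun e => ?_⟩
    have := hσ.2
    have h5 : e ∈ eset y σ ↔ e ∈ eset x 1 := by rw [this]
    unfold eset at h5
    simp only [Finset.mem_filter, Finset.mem_univ, true_and, pact_one] at h5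
    rw [Bool.eq_iff_iff]
    exact h5
  · exfalso
    have h2 : ((univ : Finset (Pr n)).powerset.filter (fun z => g z ≠ 0)) ⊆
        (univ : Finset (Equiv.Perm (Fin n))).image (eset x)
          ∪ (univ : Finset (Equiv.Perm (Fin n))).image (eset y) := by
      intro z hz
      rw [Finset.mem_filter] at hz
      rw [Finset.mem_union, Finset.mem_image, Finset.mem_image]
      by_contra hcon
      push Not at hcon
      apply hz.2
      rw [hg]
      simp only
      rw [Finset.filter_false_of_mem (fun σ hσ => hcon.1 σ hσ),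
        Finset.filter_false_of_mem (fun σ hσ => hcon.2 σ hσ)]
      simp
    have h3 := Finset.card_le_card h2
    have h4 := Finset.card_union_le ((univ : Finset (Equiv.Perm (Fin n))).image (eset x))
      ((univ : Finset (Equiv.Perm (Fin n))).image (eset y))
    have h5 : ((univ : Finset (Equiv.Perm (Fin n))).image (eset x)).card ≤ n.factorial := by
      refine le_trans Finset.card_image_le ?_
      rw [Finset.card_univ, Fintype.card_perm, Fintype.card_fin]
    have h6 : ((univ : Finset (Equiv.Perm (Fin n))).image (eset y)).card ≤ n.factorial := by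
      refine le_trans Finset.card_image_le ?_
      rw [Finset.card_univ, Fintype.card_perm, Fintype.card_fin]
    omega

open MvPolynomial in
/-- the polynomial counting the copies of `F` in one of the two graphs -/
noncomputable def cpoly {n : ℕ} (ι : Pr n → Var n) (F : Finset (Pr n)) :
    MvPolynomial (Var n) ℝ :=
  ∑ σ : Equiv.Perm (Fin n), ∏ e ∈ F, X (ι (pact σ e))

open MvPolynomial in
lemma eval_cpoly {n : ℕ} (ι : Pr n → Var n) (F : Finset (Pr n)) (a : Var n → Bool) :
    eval (pt a) (cpoly ι F) = cnt (fun e => a (ι e)) F := by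
  unfold cpoly cnt
  rw [map_sum, Finset.card_filter, Nat.cast_sum]
  apply Finset.sum_congr rfl
  intro σ _
  rw [map_prod]
  simp only [eval_X, pt]
  rw [Finset.prod_ite_zero]
  push_cast
  simp only [Finset.prod_const_one]
  congr 1
  unfold eset
  apply propext
  constructor
  · intro h e he
    rw [Finset.mem_filter]
    exact ⟨Finset.mem_univ _, h e he⟩
  · intro h e he
    have := h he
    rw [Finset.mem_filter] at this
    exact this.2

open MvPolynomial in
lemma totalDegree_cpoly {n : ℕ} (ι : Pr n → Var n) (F : Finset (Pr n)) :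
    (cpoly ι F).totalDegree ≤ F.card := by
  unfold cpoly
  apply totalDegree_finsetSum_le
  intro σ _
  refine le_trans (totalDegree_finsetProd _ _) ?_
  rw [Finset.card_eq_sum_ones]
  apply Finset.sum_le_sum
  intro e _
  rw [totalDegree_X]

open MvPolynomial in
theorem upper (n : ℕ) : ∃ P : MvPolynomial (Var n) ℝ,
    P.totalDegree ≤ 2 * (Nat.log 2 n.factorial + 1) ∧
    ∀ a : Var n → Bool, (Isomorphic n a → 0 < eval (pt a) P) ∧
      (¬ Isomorphic n a → eval (pt a) P < 0) := by
  classical
  set D := Nat.log 2 n.factorial + 1 with hD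
  have hk : 2 * n.factorial < 2 ^ (D + 1) := by
    have : n.factorial < 2 ^ D := Nat.lt_pow_succ_log_self (b := 2) (by norm_num) n.factorial
    rw [pow_succ]
    omega
  refine ⟨C (1 / 2) - ∑ F ∈ (univ : Finset (Finset (Pr n))).filter (fun F => F.card < D + 1),
    (cpoly Sum.inl F - cpoly Sum.inr F) ^ 2, ?_, ?_⟩
  · refine le_trans (totalDegree_sub _ _) (max_le (by simp) ?_)
    apply totalDegree_finsetSum_le
    intro F hF
    rw [Finset.mem_filter] at hF
    refine le_trans (totalDegree_pow _ _) ?_
    have h1 : (cpoly Sum.inl F - cpoly Sum.inr F).totalDegree ≤ D := by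
      refine le_trans (totalDegree_sub _ _) (max_le ?_ ?_)
      · have := totalDegree_cpoly (n := n) Sum.inl F
        omega
      · have := totalDegree_cpoly (n := n) Sum.inr F
        omega
    omega
  · intro a
    have he : eval (pt a) (C (1 / 2) - ∑ F ∈ (univ : Finset (Finset (Pr n))).filter
        (fun F => F.card < D + 1), (cpoly Sum.inl F - cpoly Sum.inr F) ^ 2)
        = 1 / 2 - ∑ F ∈ (univ : Finset (Finset (Pr n))).filter (fun F => F.card < D + 1),
          ((cnt (fun e => a (Sum.inl e)) F : ℝ) - cnt (fun e => a (Sum.inr e)) F) ^ 2 := by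
      rw [map_sub, map_sum, eval_C]
      congr 1
      apply Finset.sum_congr rfl
      intro F _
      rw [map_pow, map_sub, eval_cpoly, eval_cpoly]
    rw [he]
    constructor
    · intro hiso
      rw [isomorphic_iff] at hiso
      obtain ⟨τ, hτ⟩ := hiso
      have : ∀ F : Finset (Pr n), cnt (fun e => a (Sum.inl e)) F = cnt (fun e => a (Sum.inr e)) F := by
        intro F
        unfold cnt eset
        apply Finset.card_bij (fun σ _ => τ * σ)
        · intro σ hσ
          rw [Finset.mem_filter] at hσ ⊢
          refine ⟨Finset.mem_univ _, ?_⟩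
          intro e he
          have := hσ.2 he
          rw [Finset.mem_filter] at this ⊢
          refine ⟨Finset.mem_univ _, ?_⟩
          have h2 := hτ (pact σ e)
          have h3 : pact (τ * σ) e = pact τ (pact σ e) := by
            apply Subtype.ext
            simp [pact, Sym2.map_map]
          show a (Sum.inr (pact (τ * σ) e)) = true
          rw [h3, h2]
          exact this.2
        · intro σ _ σ' _ h
          exact mul_left_cancel h
        · intro σ hσ
          refine ⟨τ⁻¹ * σ, ?_, by group⟩
          rw [Finset.mem_filter] at hσ ⊢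
          refine ⟨Finset.mem_univ _, ?_⟩
          intro e he
          have := hσ.2 he
          rw [Finset.mem_filter] at this ⊢
          refine ⟨Finset.mem_univ _, ?_⟩
          have h2 := hτ (pact (τ⁻¹ * σ) e)
          have h3 : pact τ (pact (τ⁻¹ * σ) e) = pact σ e := by
            apply Subtype.ext
            simp [pact, Sym2.map_map]
          show a (Sum.inl (pact (τ⁻¹ * σ) e)) = true
          rw [← h2, h3]
          exact this.2
      have h0 : ∑ F ∈ (univ : Finset (Finset (Pr n))).filter (fun F => F.card < D + 1),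
          ((cnt (fun e => a (Sum.inl e)) F : ℝ) - cnt (fun e => a (Sum.inr e)) F) ^ 2 = 0 := by
        apply Finset.sum_eq_zero
        intro F _
        rw [this F, sub_self]
        norm_num
      rw [h0]
      norm_num
    · intro hiso
      have h1 : ∃ F : Finset (Pr n), F.card < D + 1 ∧
          cnt (fun e => a (Sum.inl e)) F ≠ cnt (fun e => a (Sum.inr e)) F := by
        by_contra hcon
        push Not at hcon
        apply hiso
        rw [isomorphic_iff]
        exact separation hk _ _ hcon
      obtain ⟨F, hF, hne⟩ := h1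
      have h2 : (1 : ℝ) ≤ ((cnt (fun e => a (Sum.inl e)) F : ℝ)
          - cnt (fun e => a (Sum.inr e)) F) ^ 2 := by
        have h3 : ((cnt (fun e => a (Sum.inl e)) F : ℤ) - cnt (fun e => a (Sum.inr e)) F) ≠ 0 := by
          omega
        have h4 : (1 : ℤ) ≤ ((cnt (fun e => a (Sum.inl e)) F : ℤ)
            - cnt (fun e => a (Sum.inr e)) F) ^ 2 := by
          have := sq_pos_of_ne_zero h3
          omega
        exact_mod_cast h4
      have h5 : ((cnt (fun e => a (Sum.inl e)) F : ℝ) - cnt (fun e => a (Sum.inr e)) F) ^ 2 ≤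
          ∑ F ∈ (univ : Finset (Finset (Pr n))).filter (fun F => F.card < D + 1),
          ((cnt (fun e => a (Sum.inl e)) F : ℝ) - cnt (fun e => a (Sum.inr e)) F) ^ 2 :=
        Finset.single_le_sum (f := fun F => ((cnt (fun e => a (Sum.inl e)) F : ℝ)
          - cnt (fun e => a (Sum.inr e)) F) ^ 2) (fun F _ => sq_nonneg _)
          (Finset.mem_filter.mpr ⟨Finset.mem_univ _, hF⟩)
      linarith


/-! ## Lower bound: one long cycle or two short cycles -/

section lower

variable {n k : ℕ}

/-- the edges leaving position `i`, for the twist vector `t` -/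
def Step (ι : (ZMod (k + 3) × ZMod 2) ↪ Fin n) (t : ZMod (k + 3) → ZMod 2) (u v : Fin n) : Prop :=
  ∃ i c, u = ι (i, c) ∧ v = ι (i + 1, c + t i)

lemma step_ne {ι : (ZMod (k + 3) × ZMod 2) ↪ Fin n} {t : ZMod (k + 3) → ZMod 2} {u v : Fin n}
    (h : Step ι t u v) : u ≠ v := by
  obtain ⟨i, c, rfl, rfl⟩ := h
  intro h
  have h1 := ι.injective h
  rw [Prod.mk.injEq] at h1
  have h2 : (1 : ZMod (k + 3)) = 0 := by
    have := h1.1
    have h3 : i + 0 = i + 1 := by rw [add_zero]; exact this
    exact (add_left_cancel h3).symm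
  haveI : Fact (1 < k + 3) := ⟨by omega⟩
  exact one_ne_zero h2

open Classical in
/-- the bit vector of the graph with twist vector `t` -/
noncomputable def gbits (ι : (ZMod (k + 3) × ZMod 2) ↪ Fin n) (t : ZMod (k + 3) → ZMod 2) :
    Pr n → Bool := fun e => decide (∃ i c, e.1 = s(ι (i, c), ι (i + 1, c + t i)))

lemma gbits_iff {ι : (ZMod (k + 3) × ZMod 2) ↪ Fin n} {t : ZMod (k + 3) → ZMod 2} {e : Pr n} :
    gbits ι t e = true ↔ ∃ i c, e.1 = s(ι (i, c), ι (i + 1, c + t i)) := by
  unfold gbits
  simp

lemma adj_iff {ι : (ZMod (k + 3) × ZMod 2) ↪ Fin n} {t : ZMod (k + 3) → ZMod 2} {u v : Fin n} :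
    (graphOf (gbits ι t)).Adj u v ↔ Step ι t u v ∨ Step ι t v u := by
  constructor
  · rintro ⟨h, hx⟩
    rw [gbits_iff] at hx
    obtain ⟨i, c, hic⟩ := hx
    simp only at hic
    rw [Sym2.eq_iff] at hic
    rcases hic with ⟨h1, h2⟩ | ⟨h1, h2⟩
    · exact Or.inl ⟨i, c, h1, h2⟩
    · exact Or.inr ⟨i, c, h2, h1⟩
  · intro h
    have hne : u ≠ v := by
      rcases h with h | h
      · exact step_ne h
      · exact (step_ne h).symm
    refine ⟨by rwa [Sym2.mk_isDiag_iff], ?_⟩
    rw [gbits_iff]
    rcases h with ⟨i, c, h1, h2⟩ | ⟨i, c, h1, h2⟩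
    · refine ⟨i, c, ?_⟩
      show s(u, v) = _
      rw [h1, h2]
    · refine ⟨i, c, ?_⟩
      show s(u, v) = _
      rw [h1, h2, Sym2.eq_swap]

lemma two_ne : (2 : ZMod (k + 3)) ≠ 0 := by
  intro h
  have h1 : ((2 : ℕ) : ZMod (k + 3)) = 0 := by exact_mod_cast h
  rw [ZMod.natCast_eq_zero_iff] at h1
  have := Nat.le_of_dvd (by norm_num) h1
  omega

/-- The bit at `e` depends on at most one coordinate of `t`. -/
lemma gbits_dep (ι : (ZMod (k + 3) × ZMod 2) ↪ Fin n) (e : Pr n) :
    ∃ i₀ : ZMod (k + 3), ∀ t t' : ZMod (k + 3) → ZMod 2, t i₀ = t' i₀ →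
      gbits ι t e = gbits ι t' e := by
  by_cases h : ∃ i c d, e.1 = s(ι (i, c), ι (i + 1, d))
  · obtain ⟨i, c, d, he⟩ := h
    refine ⟨i, ?_⟩
    have key : ∀ t t' : ZMod (k + 3) → ZMod 2, t i = t' i → gbits ι t e = true →
        gbits ι t' e = true := by
      intro t t' htt h
      rw [gbits_iff] at h ⊢
      obtain ⟨j, c', hj⟩ := h
      have hij : j = i := by
        have hj' := hj
        rw [he, Sym2.eq_iff] at hj'
        rcases hj' with ⟨h1, h2⟩ | ⟨h1, h2⟩
        · have h3 := ι.injective h1
          rw [Prod.mk.injEq] at h3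
          exact h3.1.symm
        · exfalso
          have h3 := ι.injective h1
          have h4 := ι.injective h2
          rw [Prod.mk.injEq] at h3 h4
          have h5 : j + 1 + 1 = j := by rw [← h3.1]; exact h4.1
          apply two_ne (k := k)
          have h7 : j + 2 = j + 0 := by
            rw [add_zero]
            calc j + 2 = j + 1 + 1 := by ring
              _ = j := h5
          exact add_left_cancel h7
      subst hij
      exact ⟨j, c', by rw [← htt]; exact hj⟩
    intro t t' htt
    rw [Bool.eq_iff_iff]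
    exact ⟨key t t' htt, key t' t htt.symm⟩
  · refine ⟨0, fun t t' _ => ?_⟩
    rw [Bool.eq_iff_iff, gbits_iff, gbits_iff]
    constructor
    · rintro ⟨i, c, hic⟩
      exact absurd ⟨i, c, _, hic⟩ h
    · rintro ⟨i, c, hic⟩
      exact absurd ⟨i, c, _, hic⟩ h

lemma sum_range_zmod (g : ZMod (k + 3) → ZMod 2) :
    ∑ j ∈ range (k + 3), g ((j : ℕ) : ZMod (k + 3)) = ∑ x, g x := by
  rw [Finset.sum_range]
  show ∑ i : ZMod (k + 3), g ((ZMod.val i : ℕ) : ZMod (k + 3)) = _
  apply Finset.sum_congr rfl
  intro i _
  rw [ZMod.natCast_zmod_val]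

lemma exists_gauge (d : ZMod (k + 3) → ZMod 2) (hd : ∑ x, d x = 0) :
    ∃ s : ZMod (k + 3) → ZMod 2, ∀ i, s (i + 1) = s i + d i := by
  haveI : Fact (1 < k + 3) := ⟨by omega⟩
  refine ⟨fun i => ∑ j ∈ range i.val, d ((j : ℕ) : ZMod (k + 3)), fun i => ?_⟩
  beta_reduce
  have hi := ZMod.val_lt i
  rcases Nat.lt_or_ge (i.val + 1) (k + 3) with h | h
  · have h1 : (i + 1).val = i.val + 1 := by
      rw [ZMod.val_add, ZMod.val_one, Nat.mod_eq_of_lt h]
    rw [h1, Finset.sum_range_succ, ZMod.natCast_zmod_val]
  · have h2 : i.val + 1 = k + 3 := by omega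
    have h1 : (i + 1).val = 0 := by
      rw [ZMod.val_add, ZMod.val_one, h2, Nat.mod_self]
    rw [h1, Finset.sum_range_zero]
    have h3 : ∑ j ∈ range (i.val + 1), d ((j : ℕ) : ZMod (k + 3)) = 0 := by
      rw [h2, sum_range_zmod, hd]
    rw [Finset.sum_range_succ, ZMod.natCast_zmod_val] at h3
    exact h3.symm

/-- Twist vectors with the same sum give isomorphic graphs. -/
lemma iso_of_sum_eq (ι : (ZMod (k + 3) × ZMod 2) ↪ Fin n) (t t' : ZMod (k + 3) → ZMod 2)
    (h : ∑ x, t x = ∑ x, t' x) : Isomorphic n (Sum.elim (gbits ι t) (gbits ι t')) := by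
  obtain ⟨s, hs⟩ := exists_gauge (k := k) (fun i => t i + t' i) (by
    rw [Finset.sum_add_distrib, h]
    exact CharTwo.add_self_eq_zero _)
  rw [isomorphic_iff]
  let θ : Equiv.Perm (ZMod (k + 3) × ZMod 2) :=
    { toFun := fun p => (p.1, p.2 + s p.1)
      invFun := fun p => (p.1, p.2 - s p.1)
      left_inv := fun p => by simp
      right_inv := fun p => by simp }
  have hθ : ∀ p, θ p = (p.1, p.2 + s p.1) := fun p => rfl
  refine ⟨θ.viaEmbedding ι, fun e => ?_⟩
  simp only [Sum.elim_inl, Sum.elim_inr]
  have hv : ∀ p, θ.viaEmbedding ι (ι p) = ι (θ p) := fun p => Equiv.Perm.viaEmbedding_apply θ ι p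
  rw [Bool.eq_iff_iff, gbits_iff, gbits_iff]
  have id1 : ∀ c s t t' : ZMod 2, c + t + (s + (t + t')) = c + s + t' := by decide
  have id2 : ∀ c s t t' : ZMod 2, c + s + t + (s + (t + t')) = c + t' := by decide
  have id3 : ∀ c s : ZMod 2, c + s + s = c := by decide
  constructor
  · rintro ⟨i, c, hic⟩
    refine ⟨i, c + s i, ?_⟩
    apply Sym2.map.injective (θ.viaEmbedding ι).injective
    have : Sym2.map (θ.viaEmbedding ι) e.1 = s(ι (i, c), ι (i + 1, c + t' i)) := hic
    rw [this]
    show s(ι (i, c), ι (i + 1, c + t' i)) = s(θ.viaEmbedding ι (ι (i, c + s i)),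
      θ.viaEmbedding ι (ι (i + 1, c + s i + t i)))
    rw [hv, hv, hθ, hθ]
    dsimp only
    rw [hs i, id2, id3]
  · rintro ⟨i, c, hic⟩
    refine ⟨i, c + s i, ?_⟩
    show Sym2.map (θ.viaEmbedding ι) e.1 = _
    rw [hic]
    show s(θ.viaEmbedding ι (ι (i, c)), θ.viaEmbedding ι (ι (i + 1, c + t i))) =
      s(ι (i, c + s i), ι (i + 1, c + s i + t' i))
    rw [hv, hv, hθ, hθ]
    dsimp only
    rw [hs i, id1]

lemma reach_step (ι : (ZMod (k + 3) × ZMod 2) ↪ Fin n) (t : ZMod (k + 3) → ZMod 2)
    (i : ZMod (k + 3)) (c : ZMod 2) (m : ℕ) :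
    (graphOf (gbits ι t)).Reachable (ι (i, c))
      (ι (i + m, c + ∑ j ∈ range m, t (i + (j : ℕ)))) := by
  induction m with
  | zero => simp
  | succ m ih =>
    refine ih.trans (SimpleGraph.Adj.reachable ?_)
    rw [adj_iff]
    left
    refine ⟨i + m, c + ∑ j ∈ range m, t (i + (j : ℕ)), rfl, ?_⟩
    rw [Finset.sum_range_succ]
    push_cast
    rw [add_assoc i, add_assoc c]

lemma reach_all (ι : (ZMod (k + 3) × ZMod 2) ↪ Fin n) (t : ZMod (k + 3) → ZMod 2)
    (ht : ∑ x, t x = 1) (p : ZMod (k + 3) × ZMod 2) :
    (graphOf (gbits ι t)).Reachable (ι (0, 0)) (ι p) := by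
  obtain ⟨i, c⟩ := p
  have h1 := reach_step ι t 0 0 i.val
  rw [ZMod.natCast_zmod_val, zero_add] at h1
  have h2 : ∀ c : ZMod 2, (graphOf (gbits ι t)).Reachable (ι (i, c)) (ι (i, c + 1)) := by
    intro c
    have h := reach_step ι t i c (k + 3)
    rw [sum_range_zmod (fun x => t (i + x))] at h
    have e1 : ∑ x, t (i + x) = 1 := by
      rw [← ht]
      exact Equiv.sum_comp (Equiv.addLeft i) t
    rw [e1, ZMod.natCast_self, add_zero] at h
    exact h
  generalize (0 + ∑ j ∈ range i.val, t (0 + (j : ℕ)) : ZMod 2) = c' at h1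
  have h3' : ∀ c c' : ZMod 2, c = c' ∨ c = c' + 1 := by decide
  have h3 := h3' c c'
  rcases h3 with rfl | rfl
  · exact h1
  · exact h1.trans (h2 c')

lemma not_iso (ι : (ZMod (k + 3) × ZMod 2) ↪ Fin n) (t t' : ZMod (k + 3) → ZMod 2)
    (h : ∑ x, t x = 0) (h' : ∑ x, t' x = 1) :
    ¬ Isomorphic n (Sum.elim (gbits ι t) (gbits ι t')) := by
  intro hiso
  -- replace `t` by zero
  have h0 : Isomorphic n (Sum.elim (gbits ι (0 : ZMod (k + 3) → ZMod 2)) (gbits ι t')) := by
    have h1 := iso_of_sum_eq ι (0 : ZMod (k + 3) → ZMod 2) t (by rw [h]; simp)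
    obtain ⟨φ⟩ := h1
    obtain ⟨ψ⟩ := hiso
    exact ⟨φ.trans ψ⟩
  obtain ⟨φ⟩ := h0
  simp only [Sum.elim_inl, Sum.elim_inr] at φ
  -- reachability from `u` in the graph without twists
  set u := φ.symm (ι (0, 0)) with hu
  have hall : ∀ p, (graphOf (gbits ι (0 : ZMod (k + 3) → ZMod 2))).Reachable u
      (φ.symm (ι p)) := by
    intro p
    exact (reach_all ι t' h' p).map φ.symm.toHom
  have hadj : ∀ v w, (graphOf (gbits ι (0 : ZMod (k + 3) → ZMod 2))).Adj v w →
      ∃ i j d, v = ι (i, d) ∧ w = ι (j, d) := by
    intro v w hvw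
    rw [adj_iff] at hvw
    rcases hvw with ⟨i, c, h1, h2⟩ | ⟨i, c, h1, h2⟩
    · exact ⟨i, i + 1, c, h1, by rw [h2]; simp⟩
    · exact ⟨i + 1, i, c, by rw [h2]; simp, h1⟩
  have hcl : ∀ v w, (graphOf (gbits ι (0 : ZMod (k + 3) → ZMod 2))).Reachable v w →
      v = w ∨ ∃ i j d, v = ι (i, d) ∧ w = ι (j, d) := by
    intro v w hvw
    obtain ⟨p⟩ := hvw
    induction p with
    | nil => exact Or.inl rfl
    | cons hadj' _ ih =>
      obtain ⟨i, j, d, e1, e2⟩ := hadj _ _ hadj'
      rcases ih with rfl | ⟨i', j', d', e3, e4⟩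
      · exact Or.inr ⟨i, j, d, e1, e2⟩
      · rw [e2] at e3
        have := ι.injective e3
        rw [Prod.mk.injEq] at this
        exact Or.inr ⟨i, j', d, e1, by rw [e4, this.2]⟩
  -- contradiction by counting
  have hex : ∃ d, ∀ p, φ.symm (ι p) = u ∨ ∃ j, φ.symm (ι p) = ι (j, d) := by
    by_cases hur : ∃ i d, u = ι (i, d)
    · obtain ⟨i, d, hid⟩ := hur
      refine ⟨d, fun p => ?_⟩
      rcases hcl _ _ (hall p) with h1 | ⟨i', j', d', e1, e2⟩
      · exact Or.inl h1.symm
      · right
        rw [hid] at e1
        have := ι.injective e1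
        rw [Prod.mk.injEq] at this
        exact ⟨j', by rw [e2, ← this.2]⟩
    · refine ⟨0, fun p => ?_⟩
      rcases hcl _ _ (hall p) with h1 | ⟨i', j', d', e1, e2⟩
      · exact Or.inl h1.symm
      · exact absurd ⟨i', d', e1⟩ hur
  obtain ⟨d, hd⟩ := hex
  have hsub : (univ : Finset (ZMod (k + 3) × ZMod 2)).image (fun p => φ.symm (ι p)) ⊆
      insert u ((univ : Finset (ZMod (k + 3))).image (fun j => ι (j, d))) := by
    intro v hv
    obtain ⟨p, _, rfl⟩ := Finset.mem_image.mp hv
    rw [Finset.mem_insert, Finset.mem_image]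
    rcases hd p with h1 | ⟨j, hj⟩
    · exact Or.inl h1
    · exact Or.inr ⟨j, Finset.mem_univ _, hj.symm⟩
  have h1 := Finset.card_le_card hsub
  rw [Finset.card_image_of_injective _ (fun p q hpq => ι.injective (φ.symm.injective hpq)),
    Finset.card_univ, Fintype.card_prod, ZMod.card, ZMod.card] at h1
  have h2 := Finset.card_insert_le u ((univ : Finset (ZMod (k + 3))).image (fun j => ι (j, d)))
  have h3 : ((univ : Finset (ZMod (k + 3))).image (fun j => ι (j, d))).card ≤ k + 3 := by
    refine le_trans Finset.card_image_le ?_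
    rw [Finset.card_univ, ZMod.card]
  omega

/-- the sign of a twist vector -/
def sgn (t : ZMod (k + 3) → ZMod 2) : ℝ := if ∑ x, t x = 0 then 1 else -1

lemma sgn_add (t : ZMod (k + 3) → ZMod 2) (i : ZMod (k + 3)) :
    sgn (t + Pi.single i (1 : ZMod 2)) = - sgn t := by
  unfold sgn
  have h1 : ∑ x, (t + Pi.single i (1 : ZMod 2) : ZMod (k + 3) → ZMod 2) x = ∑ x, t x + 1 := by
    simp only [Pi.add_apply]
    rw [Finset.sum_add_distrib]
    congr 1
    rw [Finset.sum_pi_single']
    simp
  rw [h1]
  have h2 : ∀ x : ZMod 2, (x + 1 = 0) ↔ ¬ (x = 0) := by decide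
  by_cases h : ∑ x, t x = 0
  · rw [if_neg (by rw [h2]; exact fun h' => h' h), if_pos h]
  · rw [if_pos (by rw [h2]; exact h), if_neg h]
    norm_num

open MvPolynomial in
/-- polynomials of small degree are orthogonal to the sign -/
lemma sum_sgn (ι : (ZMod (k + 3) × ZMod 2) ↪ Fin n) (y : Pr n → Bool)
    (P : MvPolynomial (Var n) ℝ) (hP : P.totalDegree < k + 3) :
    ∑ t : ZMod (k + 3) → ZMod 2, sgn t * eval (pt (Sum.elim (gbits ι t) y)) P = 0 := by
  classical
  simp only [eval_eq, Finset.mul_sum]
  rw [Finset.sum_comm]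
  apply Finset.sum_eq_zero
  intro m hm
  choose dep hdep using gbits_dep (n := n) ι
  -- a coordinate not used
  let f : Var n → ZMod (k + 3) := fun v => Sum.elim dep (fun _ => 0) v
  have hcard : (m.support.image f).card < k + 3 := by
    refine lt_of_le_of_lt Finset.card_image_le (lt_of_le_of_lt ?_ hP)
    refine le_trans ?_ (le_totalDegree hm)
    rw [Finsupp.sum, Finset.card_eq_sum_ones]
    apply Finset.sum_le_sum
    intro i hi
    rw [Finsupp.mem_support_iff] at hi
    omega
  obtain ⟨i, hi⟩ : ∃ i : ZMod (k + 3), i ∉ m.support.image f := by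
    by_contra hcon
    push Not at hcon
    have h1 : (univ : Finset (ZMod (k + 3))) ⊆ m.support.image f := fun i _ => hcon i
    have h2 := Finset.card_le_card h1
    rw [Finset.card_univ, ZMod.card] at h2
    omega
  have hinv : ∀ t : ZMod (k + 3) → ZMod 2,
      ∏ v ∈ m.support, pt (Sum.elim (gbits ι (t + Pi.single i (1 : ZMod 2))) y) v ^ m v
        = ∏ v ∈ m.support, pt (Sum.elim (gbits ι t) y) v ^ m v := by
    intro t
    apply Finset.prod_congr rfl
    intro v hv
    have heq : Sum.elim (gbits ι (t + Pi.single i (1 : ZMod 2))) y v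
        = Sum.elim (gbits ι t) y v := by
      rcases v with e | e
      · rw [Sum.elim_inl, Sum.elim_inl]
        apply hdep e
        have hne : dep e ≠ i := by
          intro h
          exact hi (Finset.mem_image.mpr ⟨Sum.inl e, hv, h⟩)
        rw [Pi.add_apply, Pi.single_eq_of_ne hne, add_zero]
      · rfl
    have hpt : pt (Sum.elim (gbits ι (t + Pi.single i (1 : ZMod 2))) y) v
        = pt (Sum.elim (gbits ι t) y) v := by
      unfold pt
      rw [heq]
    rw [hpt]
  have h1 : ∑ t : ZMod (k + 3) → ZMod 2, sgn t * (coeff m P *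
      ∏ v ∈ m.support, pt (Sum.elim (gbits ι t) y) v ^ m v)
      = ∑ t : ZMod (k + 3) → ZMod 2, sgn (t + Pi.single i (1 : ZMod 2)) * (coeff m P *
      ∏ v ∈ m.support, pt (Sum.elim (gbits ι (t + Pi.single i (1 : ZMod 2))) y) v ^ m v) :=
    (Equiv.sum_comp (Equiv.addRight (Pi.single i (1 : ZMod 2))) (fun t => sgn t * (coeff m P *
      ∏ v ∈ m.support, pt (Sum.elim (gbits ι t) y) v ^ m v))).symm
  have h2 : ∑ t : ZMod (k + 3) → ZMod 2, sgn (t + Pi.single i (1 : ZMod 2)) * (coeff m P *
      ∏ v ∈ m.support, pt (Sum.elim (gbits ι (t + Pi.single i (1 : ZMod 2))) y) v ^ m v)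
      = - ∑ t : ZMod (k + 3) → ZMod 2, sgn t * (coeff m P *
      ∏ v ∈ m.support, pt (Sum.elim (gbits ι t) y) v ^ m v) := by
    rw [← Finset.sum_neg_distrib]
    apply Finset.sum_congr rfl
    intro t _
    rw [sgn_add, hinv]
    ring
  rw [h2] at h1
  linarith

end lower

open MvPolynomial in
theorem lower {n : ℕ} (hn : 6 ≤ n) (P : MvPolynomial (Var n) ℝ)
    (hP : ∀ a : Var n → Bool, (Isomorphic n a → 0 < eval (pt a) P) ∧
      (¬ Isomorphic n a → eval (pt a) P ≤ 0)) : n / 2 ≤ P.totalDegree := by
  classical
  by_contra hlt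
  push Not at hlt
  obtain ⟨k, hk⟩ : ∃ k, n / 2 = k + 3 := ⟨n / 2 - 3, by omega⟩
  rw [hk] at hlt
  obtain ⟨ι⟩ : Nonempty ((ZMod (k + 3) × ZMod 2) ↪ Fin n) := by
    apply Function.Embedding.nonempty_of_card_le
    rw [Fintype.card_prod, ZMod.card, ZMod.card, Fintype.card_fin]
    omega
  set δ : ZMod (k + 3) → ZMod 2 := Pi.single 0 1 with hδ
  have hδ1 : ∑ x, δ x = 1 := by
    rw [hδ, Finset.sum_pi_single']
    simp
  have h := sum_sgn ι (gbits ι δ) P hlt
  have hterm : ∀ t : ZMod (k + 3) → ZMod 2,
      sgn t * eval (pt (Sum.elim (gbits ι t) (gbits ι δ))) P ≤ 0 := by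
    intro t
    unfold sgn
    by_cases ht : ∑ x, t x = 0
    · rw [if_pos ht, one_mul]
      exact (hP _).2 (not_iso ι t δ ht hδ1)
    · have ht1 : ∑ x, t x = 1 := by
        revert ht
        generalize ∑ x, t x = z
        revert z
        decide
      rw [if_neg ht]
      have := (hP _).1 (iso_of_sum_eq ι t δ (by rw [ht1, hδ1]))
      linarith
  have hstrict : sgn δ * eval (pt (Sum.elim (gbits ι δ) (gbits ι δ))) P < 0 := by
    unfold sgn
    rw [if_neg (by rw [hδ1]; decide)]
    have := (hP _).1 (iso_of_sum_eq ι δ δ rfl)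
    linarith
  have hneg : ∑ t : ZMod (k + 3) → ZMod 2,
      sgn t * eval (pt (Sum.elim (gbits ι t) (gbits ι δ))) P < 0 := by
    have := Finset.sum_lt_sum (s := (univ : Finset (ZMod (k + 3) → ZMod 2)))
      (f := fun t => sgn t * eval (pt (Sum.elim (gbits ι t) (gbits ι δ))) P) (g := fun _ => 0)
      (fun t _ => hterm t) ⟨δ, Finset.mem_univ _, hstrict⟩
    simpa using this
  linarith

open MvPolynomial in
/-- **The polynomial threshold degree of graph isomorphism.** -/
theorem result (n : ℕ) :
    (∃ P : MvPolynomial (Var n) ℝ, P.totalDegree ≤ 2 * (Nat.log 2 n.factorial + 1) ∧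
      ∀ a : Var n → Bool, (Isomorphic n a → 0 < eval (pt a) P) ∧
        (¬ Isomorphic n a → eval (pt a) P < 0)) ∧
    (6 ≤ n → ∀ P : MvPolynomial (Var n) ℝ,
      (∀ a : Var n → Bool, (Isomorphic n a → 0 < eval (pt a) P) ∧
        (¬ Isomorphic n a → eval (pt a) P ≤ 0)) → n / 2 ≤ P.totalDegree) :=
  ⟨upper n, fun hn P hP => lower hn P hP⟩

end Pool.Agent.Hhelper64.GI.ThresholdDegree
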